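import Mathlib
import Pool.Agent.R795.Min.ES

/-!
# Monochromatic cliques in convex position: geometric and combinatorial lemmas
-/

set_option autoImplicit false

namespace Pool.Agent.L7h45.Mono

open Finset

/-- the orientation determinant of three points -/
def O (a b c : ℝ × ℝ) : ℝ := (b.1 - a.1) * (c.2 - a.2) - (b.2 - a.2) * (c.1 - a.1)

/-- lexicographic order of points -/
def lt (a b : ℝ × ℝ) : Prop := a.1 < b.1 ∨ (a.1 = b.1 ∧ a.2 < b.2)

lemma lt_irrefl (a : ℝ × ℝ) : ¬ lt a a := by
  rintro (h | h)
  · exact absurd h (_root_.lt_irrefl _)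
  · exact absurd h.2 (_root_.lt_irrefl _)

lemma lt_trans {a b c : ℝ × ℝ} (h : lt a b) (h' : lt b c) : lt a c := by
  rcases h with h | ⟨h1, h2⟩ <;> rcases h' with h' | ⟨h1', h2'⟩
  · exact Or.inl (h.trans h')
  · exact Or.inl (h1' ▸ h)
  · exact Or.inl (h1 ▸ h')
  · exact Or.inr ⟨h1.trans h1', h2.trans h2'⟩

lemma lt_or_lt {a b : ℝ × ℝ} (h : a ≠ b) : lt a b ∨ lt b a := by
  rcases lt_trichotomy a.1 b.1 with h1 | h1 | h1
  · exact Or.inl (Or.inl h1)
  · rcases lt_trichotomy a.2 b.2 with h2 | h2 | h2
    · exact Or.inl (Or.inr ⟨h1, h2⟩)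
    · exact absurd (Prod.ext h1 h2) h
    · exact Or.inr (Or.inr ⟨h1.symm, h2⟩)
  · exact Or.inr (Or.inl h1)

/-- transitivity of the angular order of vectors of the lexicographically positive half plane -/
lemma cross_trans {u w v : ℝ × ℝ} (hu : lt 0 u) (hw : lt 0 w) (hv : lt 0 v)
    (h1 : 0 < u.1 * w.2 - u.2 * w.1) (h2 : 0 ≤ w.1 * v.2 - w.2 * v.1) :
    0 < u.1 * v.2 - u.2 * v.1 := by
  obtain ⟨a, b⟩ := u
  obtain ⟨c, d⟩ := w
  obtain ⟨e, f⟩ := v
  simp only [lt, Prod.fst_zero, Prod.snd_zero] at *
  rcases hw with hc | ⟨hc, hd⟩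
  · have key : c * (a * f - b * e) = a * (c * f - d * e) + e * (a * d - b * c) := by ring
    rcases hv with he | ⟨he, hf⟩
    · have ha : 0 ≤ a := by rcases hu with h | h <;> [exact h.le; exact h.1.le]
      have : 0 < c * (a * f - b * e) := by
        rw [key]
        have := mul_nonneg ha h2
        have := mul_pos he h1
        linarith
      exact (mul_pos_iff_of_pos_left hc).1 this
    · subst he
      have ha : 0 < a := by
        rcases hu with h | h
        · exact h
        · exfalso
          rw [← h.1] at h1
          have := mul_pos h.2 hc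
          nlinarith
      nlinarith [mul_pos ha hf]
  · subst hc
    have ha : 0 < a := by
      by_contra hh
      have : a * d ≤ 0 := mul_nonpos_of_nonpos_of_nonneg (not_lt.1 hh) hd.le
      nlinarith
    rcases hv with he | ⟨he, hf⟩
    · have := mul_pos hd he
      nlinarith
    · subst he
      nlinarith [mul_pos ha hf]

lemma lt_sub {a b : ℝ × ℝ} (h : lt a b) : lt 0 (b - a) := by
  rcases h with h | ⟨h1, h2⟩
  · exact Or.inl (by simpa using h)
  · exact Or.inr ⟨by simp [h1], by simpa using h2⟩

/-- The orientations of `h, x, s` and `h, x, s'` when `h < x < s, s'`: if `s'` is not below the ray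
from `x` through `s`, then `0 < O h x s` implies `0 < O h x s'`. -/
lemma O_mono {h x s s' : ℝ × ℝ} (h1 : lt h x) (h2 : lt x s) (h3 : lt x s')
    (h4 : 0 ≤ O x s s') (h5 : 0 < O h x s) : 0 < O h x s' := by
  have := cross_trans (lt_sub h1) (lt_sub h2) (lt_sub h3)
    (by simp only [O, Prod.fst_sub, Prod.snd_sub] at *; nlinarith)
    (by simp only [O, Prod.fst_sub, Prod.snd_sub] at *; nlinarith)
  simp only [O, Prod.fst_sub, Prod.snd_sub] at *
  nlinarith

lemma O_swap (a b c : ℝ × ℝ) : O a c b = - O a b c := by simp only [O]; ring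
lemma O_rot (a b c : ℝ × ℝ) : O b c a = O a b c := by simp only [O]; ring

/-- A finite nonempty set has a lexicographically smallest point. -/
lemma exists_min (S : Finset (ℝ × ℝ)) (hS : S.Nonempty) :
    ∃ x ∈ S, ∀ s ∈ S, s ≠ x → lt x s := by
  classical
  induction S using Finset.induction_on with
  | empty => exact absurd hS (by simp)
  | insert a S ha ih =>
    rcases S.eq_empty_or_nonempty with rfl | hne
    · exact ⟨a, by simp, fun s hs hsa => absurd (by simpa using hs) hsa⟩
    · obtain ⟨x, hx, hmin⟩ := ih hne
      have hax : a ≠ x := fun h => ha (h ▸ hx)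
      rcases lt_or_lt hax with h | h
      · refine ⟨a, mem_insert_self _ _, fun s hs hsa => ?_⟩
        rcases mem_insert.1 hs with rfl | hs
        · exact absurd rfl hsa
        · by_cases hsx : s = x
          · exact hsx ▸ h
          · exact lt_trans h (hmin s hs hsx)
      · refine ⟨x, mem_insert_of_mem hx, fun s hs hsx => ?_⟩
        rcases mem_insert.1 hs with rfl | hs
        · exact h
        · exact hmin s hs hsx

/-- the number of points needed to extract `m` points after `h` points -/
def B : ℕ → ℕ → ℕ
  | _, 0 => 0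
  | h, m + 1 => 2 * (h + 1) * B (h + 1) m + 1

/-- **Extraction.**  From many points one can extract a sequence such that for `i < j < k` the colour
of the pair `i, j` depends only on `i`, and the orientation of `i, j, k` only on `i, j`. -/
lemma extract (c : Sym2 (ℝ × ℝ) → Bool) (m : ℕ) : ∀ (H S : Finset (ℝ × ℝ)),
    (∀ h ∈ H, ∀ s ∈ S, lt h s) → B H.card m ≤ S.card →
    ∃ y : ℕ → ℝ × ℝ, (∀ k < m, y k ∈ S) ∧ (∀ i k, i < k → k < m → lt (y i) (y k)) ∧
      (∀ i < m, ∃ γ, ∀ k, i < k → k < m → c s(y i, y k) = γ) ∧
      (∀ i < m, ∀ h ∈ H, ∀ k k', i < k → k < m → i < k' → k' < m →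
        (0 < O h (y i) (y k) → 0 < O h (y i) (y k'))) ∧
      (∀ i j, i < j → j < m → ∀ k k', j < k → k < m → j < k' → k' < m →
        (0 < O (y i) (y j) (y k) → 0 < O (y i) (y j) (y k'))) := by
  classical
  induction m with
  | zero =>
    intro H S _ _
    exact ⟨fun _ => 0, by simp, by simp, by simp, by simp, by simp⟩
  | succ m ih =>
    intro H S hHS hcard
    have hne : S.Nonempty := by
      rw [← card_pos]; simp only [B] at hcard; omega
    obtain ⟨x, hx, hmin⟩ := exists_min S hne
    set S' := S.erase x with hS'
    have hcS' : 2 * (H.card + 1) * B (H.card + 1) m ≤ S'.card := by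
      rw [hS', card_erase_of_mem hx]; simp only [B] at hcard; omega
    let cls : ℝ × ℝ → Bool × Fin (H.card + 1) := fun s =>
      (c s(x, s), ⟨(H.filter fun h => 0 < O h x s).card, by
        have := card_filter_le H (fun h => 0 < O h x s); omega⟩)
    have hpig : ∃ q ∈ (univ : Finset (Bool × Fin (H.card + 1))),
        B (H.card + 1) m ≤ (S'.filter fun s => cls s = q).card := by
      by_contra hcon
      push Not at hcon
      have h1 : S'.card = ∑ q : Bool × Fin (H.card + 1), (S'.filter fun s => cls s = q).card :=
        card_eq_sum_card_fiberwise (fun _ _ => by simp)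
      by_cases hB : B (H.card + 1) m = 0
      · have := hcon (true, 0) (mem_univ _)
        omega
      · have h2 : ∑ q : Bool × Fin (H.card + 1), (S'.filter fun s => cls s = q).card
            < ∑ q : Bool × Fin (H.card + 1), B (H.card + 1) m :=
          sum_lt_sum_of_nonempty ⟨(true, 0), mem_univ _⟩ (fun q hq => hcon q hq)
        rw [sum_const, card_univ, Fintype.card_prod, Fintype.card_bool, Fintype.card_fin,
          smul_eq_mul] at h2
        omega
    obtain ⟨q, -, hq⟩ := hpig
    set T := S'.filter fun s => cls s = q with hT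
    have hxH : x ∉ H := fun h => lt_irrefl x (hHS x h x hx)
    have hTS : ∀ s ∈ T, s ∈ S ∧ s ≠ x ∧ cls s = q := by
      intro s hs
      rw [hT, mem_filter, hS', mem_erase] at hs
      exact ⟨hs.1.2, hs.1.1, hs.2⟩
    obtain ⟨y, y1, y2, y3, y4, y5⟩ := ih (insert x H) T
      (by
        intro h hh s hs
        rcases mem_insert.1 hh with rfl | hh
        · exact hmin s (hTS s hs).1 (hTS s hs).2.1
        · exact hHS h hh s (hTS s hs).1)
      (by rw [card_insert_of_notMem hxH]; exact hq)
    -- the orientation with respect to `x` is constant on `T`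
    have hor : ∀ s ∈ T, ∀ s' ∈ T, ∀ h ∈ H, 0 < O h x s → 0 < O h x s' := by
      intro s hs s' hs' h hh hpos
      obtain ⟨hsS, hsx, hsq⟩ := hTS s hs
      obtain ⟨hsS', hsx', hsq'⟩ := hTS s' hs'
      have hcards : (H.filter fun h => 0 < O h x s).card = (H.filter fun h => 0 < O h x s').card := by
        have := hsq.trans hsq'.symm
        have := congrArg (fun z => (z.2 : ℕ)) this
        simpa [cls] using this
      rcases le_total 0 (O x s s') with h0 | h0
      · exact O_mono (hHS h hh x hx) (hmin s hsS hsx) (hmin s' hsS' hsx') h0 hpos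
      · have hsub : (H.filter fun h => 0 < O h x s') ⊆ (H.filter fun h => 0 < O h x s) := by
          intro g hg
          rw [mem_filter] at hg ⊢
          refine ⟨hg.1, O_mono (hHS g hg.1 x hx) (hmin s' hsS' hsx') (hmin s hsS hsx) ?_ hg.2⟩
          have : O x s' s = - O x s s' := O_swap x s s'
          linarith
        have heq := eq_of_subset_of_card_le hsub hcards.le
        have : h ∈ H.filter fun h => 0 < O h x s := mem_filter.2 ⟨hh, hpos⟩
        rw [← heq, mem_filter] at this
        exact this.2
    refine ⟨fun k => if k = 0 then x else y (k - 1), ?_, ?_, ?_, ?_, ?_⟩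
    · intro k hk
      by_cases h0 : k = 0
      · simpa [h0] using hx
      · simp only [h0, if_false]
        exact (hTS _ (y1 (k - 1) (by omega))).1
    · intro i k hik hk
      have hk0 : k ≠ 0 := by omega
      simp only [hk0, if_false]
      by_cases h0 : i = 0
      · simp only [h0, if_true]
        have := hTS _ (y1 (k - 1) (by omega))
        exact hmin _ this.1 this.2.1
      · simp only [h0, if_false]
        exact y2 (i - 1) (k - 1) (by omega) (by omega)
    · intro i hi
      by_cases h0 : i = 0
      · subst h0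
        refine ⟨q.1, fun k hk hkm => ?_⟩
        have hk0 : k ≠ 0 := by omega
        simp only [hk0, if_false, if_true]
        have := (hTS _ (y1 (k - 1) (by omega))).2.2
        exact congrArg Prod.fst this
      · obtain ⟨γ, hγ⟩ := y3 (i - 1) (by omega)
        refine ⟨γ, fun k hk hkm => ?_⟩
        have hk0 : k ≠ 0 := by omega
        simp only [hk0, h0, if_false]
        exact hγ (k - 1) (by omega) (by omega)
    · intro i hi h hh k k' hk hkm hk' hkm'
      have hk0 : k ≠ 0 := by omega
      have hk0' : k' ≠ 0 := by omega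
      simp only [hk0, hk0', if_false]
      by_cases h0 : i = 0
      · simp only [h0, if_true]
        exact hor _ (y1 (k - 1) (by omega)) _ (y1 (k' - 1) (by omega)) h hh
      · simp only [h0, if_false]
        exact y4 (i - 1) (by omega) h (mem_insert_of_mem hh) (k - 1) (k' - 1) (by omega) (by omega)
          (by omega) (by omega)
    · intro i j hij hj k k' hk hkm hk' hkm'
      have hj0 : j ≠ 0 := by omega
      have hk0 : k ≠ 0 := by omega
      have hk0' : k' ≠ 0 := by omega
      simp only [hj0, hk0, hk0', if_false]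
      by_cases h0 : i = 0
      · simp only [h0, if_true]
        exact y4 (j - 1) (by omega) x (mem_insert_self _ _) (k - 1) (k' - 1) (by omega) (by omega)
          (by omega) (by omega)
      · simp only [h0, if_false]
        exact y5 (i - 1) (j - 1) (by omega) (by omega) (k - 1) (k' - 1) (by omega) (by omega)
          (by omega) (by omega)

end Pool.Agent.L7h45.Mono
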