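import Mathlib
import Pool.Agent.L7h45.Mono

/-!
# Monochromatic cliques in convex position: convexity, Erdős–Szekeres step and the bound
-/

set_option autoImplicit false

namespace Pool.Agent.L7h45.Mono

open Finset

/-- the open half plane argument -/
lemma not_mem_hull {T : Set (ℝ × ℝ)} {x a b : ℝ × ℝ} {s : ℝ} (hT : ∀ t ∈ T, 0 ≤ s * O a b t)
    (hx : s * O a b x < 0) : x ∉ convexHull ℝ T := by
  intro hmem
  have hconv : Convex ℝ {t : ℝ × ℝ | 0 ≤ s * O a b t} := by
    intro u hu v hv α β hα hβ hαβ
    change 0 ≤ s * O a b u at hu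
    change 0 ≤ s * O a b v at hv
    change 0 ≤ s * O a b (α • u + β • v)
    simp only [O, Prod.fst_add, Prod.snd_add, Prod.smul_fst, Prod.smul_snd,
      smul_eq_mul] at *
    have hβ' : β = 1 - α := by linarith
    have h1 := mul_nonneg hα hu
    have h2 := mul_nonneg hβ hv
    subst hβ'
    nlinarith
  have : 0 ≤ s * O a b x := convexHull_min (s := T) (fun t ht => hT t ht) hconv hmem
  linarith

lemma O_self (a b : ℝ × ℝ) : O a b a = 0 := by simp only [O]; ring
lemma O_self' (a b : ℝ × ℝ) : O a b b = 0 := by simp only [O]; ring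

/-- A sequence all of whose triples have the same orientation is in convex position. -/
lemma convex_position {p : ℕ} (hp : 3 ≤ p) (v : ℕ → ℝ × ℝ) (s : ℝ)
    (h : ∀ i j k, i < j → j < k → k < p → 0 < s * O (v i) (v j) (v k)) {m : ℕ} (hm : m < p)
    {T : Set (ℝ × ℝ)} (hT : ∀ t ∈ T, ∃ j, j < p ∧ j ≠ m ∧ t = v j) :
    v m ∉ convexHull ℝ T := by
  have key : ∃ a b, (∀ j < p, j ≠ m → 0 ≤ s * O (v a) (v b) (v j)) ∧
      s * O (v a) (v b) (v m) < 0 := by
    have r1 : ∀ a b c, s * O (v a) (v b) (v c) = s * O (v b) (v c) (v a) := by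
      intro a b c; simp only [O]; ring
    have r2 : ∀ a b c, s * O (v a) (v b) (v c) = - (s * O (v a) (v c) (v b)) := by
      intro a b c; simp only [O]; ring
    by_cases h0 : m = 0
    · refine ⟨p - 1, 1, fun j hj hjm => ?_, ?_⟩
      · by_cases h1 : j = 1
        · rw [h1, O_self', mul_zero]
        · by_cases h2 : j = p - 1
          · rw [h2, O_self, mul_zero]
          · rw [r1]
            exact (h 1 j (p - 1) (by omega) (by omega) (by omega)).le
      · rw [h0, r1, r1, r2, r1, r1]
        have := h 0 1 (p - 1) (by omega) (by omega) (by omega)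
        have e := r2 0 (p - 1) 1
        have e' := r1 0 1 (p - 1)
        have e'' := r1 1 (p - 1) 0
        have f := r1 0 (p - 1) 1
        have f' := r1 (p - 1) 1 0
        linarith
    · by_cases h0' : m = p - 1
      · refine ⟨p - 2, 0, fun j hj hjm => ?_, ?_⟩
        · by_cases h1 : j = 0
          · rw [h1, O_self', mul_zero]
          · by_cases h2 : j = p - 2
            · rw [h2, O_self, mul_zero]
            · rw [r1]
              exact (h 0 j (p - 2) (by omega) (by omega) (by omega)).le
        · rw [h0']
          have := h 0 (p - 2) (p - 1) (by omega) (by omega) (by omega)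
          have e := r1 (p - 2) 0 (p - 1)
          have e' := r2 0 (p - 1) (p - 2)
          linarith
      · refine ⟨m - 1, m + 1, fun j hj hjm => ?_, ?_⟩
        · by_cases h1 : j = m - 1
          · rw [h1, O_self, mul_zero]
          · by_cases h2 : j = m + 1
            · rw [h2, O_self', mul_zero]
            · rcases lt_or_ge j m with h3 | h3
              · have := h j (m - 1) (m + 1) (by omega) (by omega) (by omega)
                have e := r1 j (m - 1) (m + 1)
                linarith
              · exact (h (m - 1) (m + 1) j (by omega) (by omega) (by omega)).le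
        · have := h (m - 1) m (m + 1) (by omega) (by omega) (by omega)
          have e := r2 (m - 1) m (m + 1)
          linarith
  obtain ⟨a, b, hab, habm⟩ := key
  refine not_mem_hull (s := s) (a := v a) (b := v b) ?_ habm
  intro t ht
  obtain ⟨j, hj, hjm, rfl⟩ := hT t ht
  exact hab j hj hjm

/-- collinearity of three points with vanishing orientation -/
lemma collinear_of_O {a b c : ℝ × ℝ} (hab : a ≠ b) (h : O a b c = 0) :
    Collinear ℝ ({a, b, c} : Set (ℝ × ℝ)) := by
  rw [collinear_iff_of_mem (p₀ := a) (by simp)]
  refine ⟨b - a, ?_⟩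
  simp only [O] at h
  intro q hq
  simp only [Set.mem_insert_iff, Set.mem_singleton_iff] at hq
  rcases hq with rfl | rfl | rfl
  · exact ⟨0, by simp⟩
  · exact ⟨1, by simp⟩
  · by_cases h1 : b.1 = a.1
    · have h2 : b.2 - a.2 ≠ 0 := by
        intro h2
        exact hab (Prod.ext h1.symm (by linarith))
      have h3 : q.1 - a.1 = 0 := by
        have : (b.2 - a.2) * (q.1 - a.1) = 0 := by rw [h1] at h; linarith
        rcases mul_eq_zero.1 this with h' | h'
        · exact absurd h' h2
        · exact h'
      refine ⟨(q.2 - a.2) / (b.2 - a.2), ?_⟩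
      ext
      · simp only [vadd_eq_add, Prod.fst_add, Prod.smul_fst, Prod.fst_sub, smul_eq_mul, h1]
        linarith
      · simp only [vadd_eq_add, Prod.snd_add, Prod.smul_snd, Prod.snd_sub, smul_eq_mul]
        field_simp
        ring
    · have h2 : b.1 - a.1 ≠ 0 := sub_ne_zero.2 h1
      refine ⟨(q.1 - a.1) / (b.1 - a.1), ?_⟩
      ext
      · simp only [vadd_eq_add, Prod.fst_add, Prod.smul_fst, Prod.fst_sub, smul_eq_mul]
        field_simp
        ring
      · simp only [vadd_eq_add, Prod.snd_add, Prod.smul_snd, Prod.snd_sub, smul_eq_mul]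
        field_simp
        linarith

end Pool.Agent.L7h45.Mono
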