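import Mathlib
import Pool.Agent.L7h45.Mono2

/-!
# Monochromatic cliques in convex position: the main argument
-/

set_option autoImplicit false

namespace Pool.Agent.L7h45.Mono

open Finset

lemma O_antisymm (a b z : ℝ × ℝ) : O b a z = - O a b z := by simp only [O]; ring

/-- transitivity of the angular order around the lexicographically last point `z` -/
lemma O_last_trans {a b d z : ℝ × ℝ} (ha : lt a z) (hb : lt b z) (hd : lt d z)
    (h1 : 0 < O a b z) (h2 : 0 < O b d z) : 0 < O a d z := by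
  have := cross_trans (lt_sub ha) (lt_sub hb) (lt_sub hd)
    (by simp only [O, Prod.fst_sub, Prod.snd_sub] at *; nlinarith)
    (by simp only [O, Prod.fst_sub, Prod.snd_sub] at *; nlinarith)
  simp only [O, Prod.fst_sub, Prod.snd_sub] at *
  nlinarith

/-- finding the index set: all triples have the same orientation -/
lemma find_indices (r N : ℕ) (I : Finset ℕ) (hI : r * r < I.card) (hIN : ∀ i ∈ I, i < N)
    (y : ℕ → ℝ × ℝ)
    (hlt : ∀ i k, i < k → k < N + 1 → lt (y i) (y k))
    (hO : ∀ i j, i < j → j < N + 1 → ∀ k k', j < k → k < N + 1 → j < k' → k' < N + 1 →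
        (0 < O (y i) (y j) (y k) → 0 < O (y i) (y j) (y k')))
    (hne : ∀ i j k, i < j → j < k → k < N + 1 → O (y i) (y j) (y k) ≠ 0) :
    ∃ J : Finset ℕ, r + 1 < J.card ∧ (∀ j ∈ J, j < N + 1) ∧ (∀ j ∈ J, j ≠ N → j ∈ I) ∧
      ∃ s : ℝ, ∀ i ∈ J, ∀ j ∈ J, ∀ k ∈ J, i < j → j < k → 0 < s * O (y i) (y j) (y k) := by
  classical
  set z := y N with hz
  let rank : {i // i ∈ I} → ℕ := fun i => (I.filter fun j => 0 < O (y j) (y i.1) z).card
  have hltz : ∀ i ∈ I, lt (y i) z := fun i hi => hlt i N (hIN i hi) (by omega)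
  have hrank : ∀ i k : {i // i ∈ I}, 0 < O (y i.1) (y k.1) z → rank i < rank k := by
    intro i k h
    apply card_lt_card
    refine (ssubset_iff_of_subset ?_).2 ⟨i.1, ?_, ?_⟩
    · intro j hj
      rw [mem_filter] at hj ⊢
      exact ⟨hj.1, O_last_trans (hltz j hj.1) (hltz i.1 i.2) (hltz k.1 k.2) hj.2 h⟩
    · exact mem_filter.2 ⟨i.2, h⟩
    · intro hh
      have := (mem_filter.1 hh).2
      simp only [O] at this
      nlinarith
  have hnz : ∀ i k : {i // i ∈ I}, i < k → O (y i.1) (y k.1) z ≠ 0 := fun i k hik =>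
    hne i.1 k.1 N hik (hIN k.1 k.2) (by omega)
  have hinj : Function.Injective rank := by
    intro i k hik
    by_contra hcon
    rcases lt_or_gt_of_ne hcon with h | h
    · rcases lt_or_gt_of_ne (hnz i k h) with h' | h'
      · have := hrank k i (by rw [O_antisymm]; linarith)
        omega
      · have := hrank i k h'
        omega
    · rcases lt_or_gt_of_ne (hnz k i h) with h' | h'
      · have := hrank i k (by rw [O_antisymm]; linarith)
        omega
      · have := hrank k i h'
        omega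
  -- a common end of the argument
  have fin : ∀ (t : Finset {i // i ∈ I}) (s : ℝ), r < t.card → (s = 1 ∨ s = -1) →
      (∀ i ∈ t, ∀ j ∈ t, i < j → 0 < s * O (y i.1) (y j.1) z) →
      ∃ J : Finset ℕ, r + 1 < J.card ∧ (∀ j ∈ J, j < N + 1) ∧ (∀ j ∈ J, j ≠ N → j ∈ I) ∧
      ∃ s : ℝ, ∀ i ∈ J, ∀ j ∈ J, ∀ k ∈ J, i < j → j < k → 0 < s * O (y i) (y j) (y k) := by
    intro t s ht hs hpos
    set J := insert N (t.image Subtype.val) with hJ
    have hJI : ∀ j ∈ J, j ≠ N → ∃ h : j ∈ I, (⟨j, h⟩ : {i // i ∈ I}) ∈ t := by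
      intro j hj hjN
      rcases mem_insert.1 hj with h | h
      · exact absurd h hjN
      · obtain ⟨i, hi, rfl⟩ := mem_image.1 h
        exact ⟨i.2, hi⟩
    have hJN : ∀ j ∈ J, j < N + 1 := by
      intro j hj
      by_cases h : j = N
      · omega
      · obtain ⟨h', -⟩ := hJI j hj h
        have := hIN j h'
        omega
    refine ⟨J, ?_, hJN, fun j hj h => (hJI j hj h).1, s, ?_⟩
    · rw [hJ, card_insert_of_notMem, card_image_of_injective _ Subtype.val_injective]
      · omega
      · intro h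
        obtain ⟨i, -, hi⟩ := mem_image.1 h
        have := hIN i.1 i.2
        omega
    · intro i hi j hj k hk hij hjk
      have hkN := hJN k hk
      obtain ⟨hi1, hi2⟩ := hJI i hi (by omega)
      obtain ⟨hj1, hj2⟩ := hJI j hj (by omega)
      have hz1 := hpos _ hi2 _ hj2 hij
      simp only at hz1
      rcases hs with rfl | rfl
      · have := hO i j hij (by omega) N k (by omega) (by omega) hjk hkN (by linarith)
        linarith
      · have h1 := hne i j k hij hjk hkN
        rcases lt_or_gt_of_ne h1 with h2 | h2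
        · linarith
        · have := hO i j hij (by omega) k N hjk hkN (by omega) (by omega) h2
          linarith
  have hcard : r * r < Fintype.card {i // i ∈ I} := by simpa using hI
  rcases Pool.Agent.R795.Min.erdos_szekeres hcard hinj with ⟨t, ht, hmono⟩ | ⟨t, ht, hanti⟩
  · refine fin t 1 ht (Or.inl rfl) ?_
    intro i hi j hj hij
    have h1 := hmono (by exact_mod_cast hi) (by exact_mod_cast hj) hij
    rcases lt_or_gt_of_ne (hnz i j hij) with h' | h'
    · have := hrank j i (by rw [O_antisymm]; linarith)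
      omega
    · linarith
  · refine fin t (-1) ht (Or.inr rfl) ?_
    intro i hi j hj hij
    have h1 := hanti (by exact_mod_cast hi) (by exact_mod_cast hj) hij
    rcases lt_or_gt_of_ne (hnz i j hij) with h' | h'
    · linarith
    · have := hrank i j h'
      omega

theorem main (p : ℕ) (hp : 3 ≤ p) (P : Finset (ℝ × ℝ))
    (hcard : B 0 (2 * ((p - 2) * (p - 2)) + 2) ≤ P.card)
    (hgen : ∀ x ∈ P, ∀ y ∈ P, ∀ z ∈ P, x ≠ y → x ≠ z → y ≠ z →
      ¬ Collinear ℝ ({x, y, z} : Set (ℝ × ℝ))) (c : Sym2 (ℝ × ℝ) → Bool) :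
    ∃ K ⊆ P, K.card = p ∧ (∀ x ∈ K, x ∉ convexHull ℝ ((K : Set (ℝ × ℝ)) \ {x})) ∧
      ∃ γ, ∀ x ∈ K, ∀ y ∈ K, x ≠ y → c s(x, y) = γ := by
  classical
  obtain ⟨y, y1, y2, y3, -, y5⟩ := extract c (2 * ((p - 2) * (p - 2)) + 2) ∅ P (by simp)
    (by simpa using hcard)
  set N := 2 * ((p - 2) * (p - 2)) + 1 with hN
  have hN1 : 2 * ((p - 2) * (p - 2)) + 2 = N + 1 := rfl
  rw [hN1] at y1 y2 y3 y5
  choose! γ hγ using y3
  have hneq : ∀ i k, i < k → k < N + 1 → y i ≠ y k := by
    intro i k hik hk h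
    exact lt_irrefl _ (h ▸ y2 i k hik hk)
  obtain ⟨b, hb⟩ : ∃ b : Bool, (p - 2) * (p - 2) < ((range N).filter fun i => γ i = b).card := by
    by_contra hcon
    push Not at hcon
    have h1 : (range N).card = ∑ b : Bool, ((range N).filter fun i => γ i = b).card :=
      card_eq_sum_card_fiberwise (fun _ _ => by simp)
    rw [card_range, Fintype.sum_bool] at h1
    have h2 := hcon true
    have h3 := hcon false
    omega
  have hne : ∀ i j k, i < j → j < k → k < N + 1 → O (y i) (y j) (y k) ≠ 0 := by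
    intro i j k hij hjk hk h
    have e1 := hneq i j hij (by omega)
    have e2 := hneq i k (by omega) hk
    have e3 := hneq j k hjk hk
    exact hgen _ (y1 i (by omega)) _ (y1 j (by omega)) _ (y1 k hk) e1 e2 e3
      (collinear_of_O e1 h)
  obtain ⟨J, hJcard, hJN, hJI, s, hs⟩ := find_indices (p - 2) N
    ((range N).filter fun i => γ i = b) hb (fun i hi => by
      have := (mem_filter.1 hi).1
      simpa using this) y y2 y5 hne
  obtain ⟨J', hJ'J, hJ'⟩ := exists_subset_card_eq (show p ≤ J.card by omega)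
  let e := J'.orderEmbOfFin hJ'
  have he : ∀ k, e k ∈ J' := fun k => orderEmbOfFin_mem J' hJ' k
  let v : ℕ → ℝ × ℝ := fun k => if h : k < p then y (e ⟨k, h⟩) else 0
  have hv : ∀ k (h : k < p), v k = y (e ⟨k, h⟩) := fun k h => by simp [v, h]
  have hsurj : ∀ j ∈ J', ∃ k : Fin p, e k = j := by
    intro j hj
    have : j ∈ Set.range e := by
      rw [range_orderEmbOfFin]; exact_mod_cast hj
    exact this
  have hvpos : ∀ i j k, i < j → j < k → k < p → 0 < s * O (v i) (v j) (v k) := by
    intro i j k hij hjk hk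
    rw [hv i (by omega), hv j (by omega), hv k hk]
    exact hs _ (hJ'J (he _)) _ (hJ'J (he _)) _ (hJ'J (he _))
      (e.strictMono (by simpa using hij)) (e.strictMono (by simpa using hjk))
  have hyinj : Set.InjOn y (J' : Set ℕ) := by
    intro i hi j hj hij
    by_contra hcon
    have hi' := hJN i (hJ'J (by exact_mod_cast hi))
    have hj' := hJN j (hJ'J (by exact_mod_cast hj))
    rcases lt_or_gt_of_ne hcon with h | h
    · exact hneq i j h hj' hij
    · exact hneq j i h hi' hij.symm
  refine ⟨J'.image y, ?_, ?_, ?_, b, ?_⟩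
  · intro x hx
    obtain ⟨j, hj, rfl⟩ := mem_image.1 hx
    exact y1 j (hJN j (hJ'J hj))
  · rw [card_image_of_injOn hyinj, hJ']
  · intro x hx
    obtain ⟨j, hj, rfl⟩ := mem_image.1 hx
    obtain ⟨m, rfl⟩ := hsurj j hj
    have hvm := hv m.1 m.2
    rw [Fin.eta] at hvm
    rw [← hvm]
    refine convex_position hp v s hvpos m.2 ?_
    rintro t ⟨ht, htne⟩
    obtain ⟨j', hj', rfl⟩ := mem_image.1 (by exact_mod_cast ht : t ∈ J'.image y)
    obtain ⟨m', rfl⟩ := hsurj j' hj'
    refine ⟨m'.1, m'.2, ?_, ?_⟩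
    · intro h
      apply htne
      rw [Set.mem_singleton_iff, hvm]
      rw [Fin.ext h]
    · rw [hv m'.1 m'.2]
  · have hcol : ∀ i ∈ J', ∀ j ∈ J', i < j → c s(y i, y j) = b := by
      intro i hi j hj hij
      have hj' := hJN j (hJ'J hj)
      have hiI := hJI i (hJ'J hi) (by omega)
      rw [hγ i (by omega) j hij hj']
      exact (mem_filter.1 hiI).2
    intro x hx x' hx' hne'
    obtain ⟨i, hi, rfl⟩ := mem_image.1 hx
    obtain ⟨j, hj, rfl⟩ := mem_image.1 hx'
    rcases lt_trichotomy i j with h | h | h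
    · exact hcol i hi j hj h
    · exact absurd (congrArg y h) hne'
    · rw [Sym2.eq_swap]
      exact hcol j hj i hi h

/-- a bound for `B` -/
lemma B_le (m : ℕ) : ∀ h, B h m ≤ (2 * (h + m)) ^ m := by
  induction m with
  | zero => intro h; simp [B]
  | succ m ih =>
    intro h
    have h1 := ih (h + 1)
    simp only [B]
    set X := 2 * (h + (m + 1)) with hX
    have hX' : 2 * (h + 1 + m) = X := by omega
    rw [hX'] at h1
    by_cases hm : m = 0
    · subst hm
      simp only [B] at *
      simp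
      omega
    · have hXpos : 1 ≤ X ^ m := Nat.one_le_pow _ _ (by omega)
      calc 2 * (h + 1) * B (h + 1) m + 1 ≤ 2 * (h + 1) * X ^ m + X ^ m := by
            gcongr
        _ = (2 * (h + 1) + 1) * X ^ m := by ring
        _ ≤ X * X ^ m := by
            apply Nat.mul_le_mul_right; omega
        _ = X ^ (m + 1) := by ring

end Pool.Agent.L7h45.Mono
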